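import Mathlib

set_option autoImplicit false

namespace Pool.Agent.Results.MP_67072b_lc.Finite

open Set Filter Topology Cardinal TopologicalSpace Sum

/-- the number of Polish semigroup topologies on a semigroup -/
def N (S : Type) [Semigroup S] : Cardinal :=
  #{τ : TopologicalSpace S // @PolishSpace S τ ∧ @ContinuousMul S τ _}

theorem auto {G S : Type} [Group G] [TopologicalSpace G] [ContinuousMul G] [BaireSpace G]
    [FirstCountableTopology G] [Mul S] [TopologicalSpace S] [SecondCountableTopology S]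
    [ContinuousMul S] (i : G → S) (hm : ∀ a b, i (a * b) = i a * i b)
    (hB : ∀ U, IsOpen U → ∃ O, IsOpen O ∧ i ⁻¹' U =ᶠ[residual G] O) : Continuous i := by
  choose! O h1 h2 using hB
  have := (countable_countableBasis S).to_subtype
  let R : Set G := {g | ∀ U : countableBasis S, i g ∈ U.1 ↔ g ∈ O U.1}
  have hR : R ∈ residual G := eventually_countable_forall.2 fun U : countableBasis S =>
    (h2 U.1 (isOpen_of_mem_countableBasis U.2)).mem_iff
  refine continuous_iff_seqContinuous.2 fun u g hu => ?_
  have hL : ∀ a : G, ∀ᶠ h in residual G, a * h ∈ R := fun a =>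
    tendsto_residual_of_isOpenMap (Homeomorph.mulLeft a).continuous
      (Homeomorph.mulLeft a).isOpenMap hR
  obtain ⟨h, k1, k2⟩ := (dense_of_mem_residual
    ((hL g).and (eventually_countable_forall.2 fun n => hL (u n)))).nonempty
  have : Tendsto (fun n => i (u n * h)) atTop (𝓝 (i (g * h))) := by
    refine (isBasis_countableBasis S).nhds_hasBasis.tendsto_right_iff.2 fun U hU => ?_
    filter_upwards [(hu.mul_const h).eventually_mem ((h1 U
      (isOpen_of_mem_countableBasis hU.1)).mem_nhds ((k1 ⟨U, hU.1⟩).1 hU.2))] with n hn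
    exact (k2 n ⟨U, hU.1⟩).2 hn
  have h3 := this.mul_const (i h⁻¹)
  simp only [← hm, mul_inv_cancel_right] at h3
  exact h3

abbrev G := Equiv.Perm ℕ

def emb (g : G) : (ℕ → ℕ) × (ℕ → ℕ) := (g, g.symm)

instance : TopologicalSpace G := induced emb inferInstance

theorem emb_closed : IsClosedEmbedding emb := by
  refine ⟨⟨⟨rfl⟩, fun a b h => DFunLike.coe_injective (congrArg Prod.fst h)⟩, ?_⟩
  have ev : Continuous fun p : (ℕ → ℕ) × ℕ => p.1 p.2 :=
    continuous_prod_of_discrete_right.2 fun n => continuous_apply n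
  have : range emb = {p | (∀ n, p.2 (p.1 n) = n) ∧ ∀ n, p.1 (p.2 n) = n} := by
    ext p
    constructor
    · rintro ⟨g, rfl⟩
      exact ⟨g.symm_apply_apply, g.apply_symm_apply⟩
    · exact fun h => ⟨⟨p.1, p.2, h.1, h.2⟩, rfl⟩
  rw [this, setOf_and, setOf_forall, setOf_forall]
  exact (isClosed_iInter fun n => isClosed_eq (ev.comp
      (continuous_snd.prodMk ((continuous_apply n).comp continuous_fst))) continuous_const).inter
    (isClosed_iInter fun n => isClosed_eq (ev.comp
      (continuous_fst.prodMk ((continuous_apply n).comp continuous_snd))) continuous_const)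

instance : PolishSpace G := emb_closed.polishSpace

theorem tendsto_G {α : Type} {l : Filter α} {u : α → G} {g : G} :
    Tendsto u l (𝓝 g) ↔ ∀ n, ∀ᶠ a in l, u a n = g n := by
  rw [emb_closed.isInducing.tendsto_nhds_iff, Prod.tendsto_iff, tendsto_pi_nhds, tendsto_pi_nhds]
  simp only [nhds_discrete, tendsto_pure]
  refine ⟨fun h => h.1, fun h => ⟨h, fun n => (h (g.symm n)).mono fun a ha => ?_⟩⟩
  exact (Equiv.symm_apply_eq _).2 (ha.trans (g.apply_symm_apply n)).symm

theorem ev (n : ℕ) (g : G) : ∀ᶠ h in 𝓝 g, h n = g n := tendsto_G.1 tendsto_id n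

instance : ContinuousMul G := ⟨continuous_iff_continuousAt.2 fun p => tendsto_G.2 fun n => by
  filter_upwards [continuousAt_fst.eventually (ev (p.2 n) p.1),
    continuousAt_snd.eventually (ev n p.2)] with q h1 h2
  rw [Equiv.Perm.mul_apply, Equiv.Perm.mul_apply, h2, h1]⟩

abbrev Y := ℕ ⊕ Bool

def S : Type := G ⊕ Y

def mul : S → S → S
  | inl g, inl h => inl (g * h)
  | inl g, inr y => inr (Sum.map g id y)
  | inr _, _ => inr (inr false)

instance : Semigroup S where
  mul := mul
  mul_assoc := by
    rintro (a | a) (b | b) (c | c | c) <;> rfl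

def gp (g : G) : S := inl g

def nat (n : ℕ) : S := inr (inl n)

def pt (b : Bool) : S := inr (inr b)

theorem cases (s : S) : (∃ g, s = gp g) ∨ (∃ n, s = nat n) ∨ ∃ b, s = pt b := by
  rcases s with g | n | b
  · exact Or.inl ⟨g, rfl⟩
  · exact Or.inr (Or.inl ⟨n, rfl⟩)
  · exact Or.inr (Or.inr ⟨b, rfl⟩)

open Classical in
noncomputable def nh (D : Bool → Prop) : S → Filter S
  | inl g => map gp (𝓝 g)
  | inr (inl n) => pure (nat n)
  | inr (inr b) => pure (pt b) ⊔ if D b then ⊥ else map nat atTop

theorem nhds_eq [TopologicalSpace S] [PolishSpace S] [ContinuousMul S] (s : S) :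
    𝓝 s = nh (fun b => IsOpen {pt b}) s := by
  have c1 : IsClosed (range gp) := by
    convert isClosed_eq (continuous_mul_const (pt true)) (continuous_const (y := pt true))
    ext s
    rcases cases s with ⟨g, rfl⟩ | ⟨n, rfl⟩ | ⟨b, rfl⟩
    · exact iff_of_true ⟨g, rfl⟩ rfl
    · exact iff_of_false (fun ⟨_, h⟩ => nomatch h) fun h => nomatch h
    · exact iff_of_false (fun ⟨_, h⟩ => nomatch h) fun h => nomatch h
  have c2 : IsClosed (range gp)ᶜ := by
    convert isClosed_eq (continuous_mul_const (pt true)) (continuous_const (y := pt false))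
    ext s
    rcases cases s with ⟨g, rfl⟩ | ⟨n, rfl⟩ | ⟨b, rfl⟩
    · exact iff_of_false (fun h => h ⟨g, rfl⟩) fun h => nomatch h
    · exact iff_of_true (fun ⟨_, h⟩ => nomatch h) rfl
    · exact iff_of_true (fun ⟨_, h⟩ => nomatch h) rfl
  have c3 : ∀ n, IsOpen {nat n} := by
    intro n
    have h := ((isClosed_eq (continuous_const_mul (gp (Equiv.swap n (n + 1)))) continuous_id).union
      (c1.union (isClosed_singleton (x := nat (n + 1))))).isOpen_compl
    convert h
    ext s
    rw [mem_singleton_iff]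
    constructor
    · rintro rfl (h | ⟨_, h⟩ | h)
      · have : Equiv.swap n (n + 1) n = n := inl.inj (inr.inj h)
        simp at this
      · exact nomatch h
      · have : n = n + 1 := inl.inj (inr.inj h)
        omega
    · intro h
      rcases cases s with ⟨g, rfl⟩ | ⟨m, rfl⟩ | ⟨b, rfl⟩
      · exact absurd (Or.inr (Or.inl ⟨g, rfl⟩)) h
      · by_contra h1
        refine h (Or.inl (congrArg nat (Equiv.swap_apply_of_ne_of_ne ?_ ?_)))
        · rintro rfl
          exact h1 rfl
        · rintro rfl
          exact h (Or.inr (Or.inr rfl))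
      · exact absurd (Or.inl rfl) h
  let ψ : S → G := Sum.elim id fun _ => 1
  have c4 : ∀ g, ContinuousAt ψ (gp g) := by
    refine fun g => tendsto_G.2 fun n => ?_
    filter_upwards [((c3 (g n)).preimage (continuous_mul_const (nat n))).mem_nhds
      (x := gp g) rfl] with t ht
    rcases cases t with ⟨h, rfl⟩ | ⟨m, rfl⟩ | ⟨b, rfl⟩
    · exact inl.inj (inr.inj ht)
    · exact nomatch ht
    · exact nomatch ht
  have c5 : Continuous gp := by
    refine auto gp (fun _ _ => rfl) fun U hU => ?_
    borelize S G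
    have : ψ '' (U ∩ range gp) = gp ⁻¹' U := by
      ext g
      constructor
      · rintro ⟨_, ⟨h, g, rfl⟩, rfl⟩
        exact h
      · exact fun h => ⟨gp g, ⟨h, g, rfl⟩, rfl⟩
    rw [← this]
    refine MeasurableSet.residualEq_isOpen (MeasurableSet.image_of_continuousOn_injOn
      (hU.measurableSet.inter c1.measurableSet) ?_ ?_)
    · rintro _ ⟨-, g, rfl⟩
      exact (c4 g).continuousWithinAt
    · rintro _ ⟨-, g, rfl⟩ _ ⟨-, h, rfl⟩ e
      exact congrArg gp e
  rcases cases s with ⟨g, rfl⟩ | ⟨n, rfl⟩ | ⟨b, rfl⟩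
  · refine le_antisymm ?_ c5.continuousAt
    intro A hA
    filter_upwards [c4 g hA, (isClosed_compl_iff.1 c2).mem_nhds ⟨g, rfl⟩] with t h1 h2
    obtain ⟨h, rfl⟩ := h2
    exact h1
  · exact isOpen_singleton_iff_nhds_eq_pure _ |>.1 (c3 n)
  · show _ = pure (pt b) ⊔ _
    split_ifs with h
    · rw [sup_bot_eq]
      exact (isOpen_singleton_iff_nhds_eq_pure _).1 h
    have hb : pt b ∉ range gp ∪ {pt !b} := by
      rintro (⟨_, h⟩ | h)
      · exact nomatch h
      · exact absurd (inr.inj (inr.inj h)) (by simp)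
    have hc : ∀ t, t ∉ range gp ∪ {pt !b} → t = pt b ∨ ∃ n, nat n = t := by
      intro t ht
      rcases cases t with ⟨g, rfl⟩ | ⟨m, rfl⟩ | ⟨c, rfl⟩
      · exact absurd (Or.inl ⟨g, rfl⟩) ht
      · exact Or.inr ⟨m, rfl⟩
      · refine Or.inl (congrArg pt ?_)
        by_contra h1
        exact ht (Or.inr (congrArg pt (Bool.eq_not.2 h1)))
    refine le_antisymm (fun A hA => ?_) (sup_le (pure_le_nhds _) ?_)
    · obtain ⟨h1, h2⟩ := mem_sup.1 hA
      rw [← Nat.cofinite_eq_atTop] at h2
      filter_upwards [(c1.union isClosed_singleton).isOpen_compl.mem_nhds hb,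
        (Finite.image nat h2).isClosed.isOpen_compl.mem_nhds (x := pt b)
          fun ⟨_, _, h⟩ => nomatch h] with t k1 k2
      rcases hc t k1 with rfl | ⟨n, rfl⟩
      · exact h1
      · by_contra k3
        exact k2 ⟨n, k3, rfl⟩
    · have h1 : pt b ∈ closure (range nat) := by
        by_contra h1
        refine h ((isOpen_singleton_iff_nhds_eq_pure _).2 (le_antisymm ?_ (pure_le_nhds _)))
        rw [le_pure_iff]
        filter_upwards [(c1.union isClosed_singleton).isOpen_compl.mem_nhds hb,
          isClosed_closure.isOpen_compl.mem_nhds h1] with t k1 k2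
        exact (hc t k1).resolve_right fun h => k2 (subset_closure h)
      obtain ⟨u, h2, h3⟩ := mem_closure_iff_seq_limit.1 h1
      choose x hx using h2
      have h4 : Tendsto (fun k => Equiv.swap (x k) k) atTop (𝓝 (1 : G)) := by
        refine tendsto_G.2 fun n => ?_
        filter_upwards [h3.eventually_ne (b₂ := nat n) (fun h => nomatch h),
          eventually_gt_atTop n] with k k1 k2
        refine Equiv.swap_apply_of_ne_of_ne ?_ k2.ne
        rintro rfl
        exact k1 (hx k).symm
      refine (((c5.tendsto 1).comp h4).mul h3).congr fun k => ?_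
      rw [← hx k]
      exact congrArg nat (Equiv.swap_apply_left _ _)

theorem build (τ : TopologicalSpace Y) [PolishSpace Y]
    (h : Continuous fun p : G × Y => Sum.map p.1 id p.2) :
    ∃ σ : TopologicalSpace S, @PolishSpace S σ ∧ @ContinuousMul S σ _ ∧
      (IsOpen[σ] {pt true} ↔ IsOpen {(inr true : Y)}) := by
  let σ : TopologicalSpace S := inferInstanceAs (TopologicalSpace (G ⊕ Y))
  have l : IsOpenEmbedding (inl : G → S) := IsOpenEmbedding.inl
  have r : IsOpenEmbedding (inr : Y → S) := IsOpenEmbedding.inr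
  refine ⟨σ, inferInstanceAs (PolishSpace (G ⊕ Y)), ⟨continuous_iff_continuousAt.2 ?_⟩, ?_⟩
  · rintro ⟨a | a, b⟩
    · rcases b with b | b
      · exact ((l.prodMap l).continuousAt_iff (x := (a, b)) (g := fun p : S × S => p.1 * p.2)).1
          (l.continuous.comp continuous_mul).continuousAt
      · exact ((l.prodMap r).continuousAt_iff (x := (a, b)) (g := fun p : S × S => p.1 * p.2)).1
          (r.continuous.comp h).continuousAt
    · exact ((r.prodMap IsOpenEmbedding.id).continuousAt_iff (x := (a, b))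
        (g := fun p : S × S => p.1 * p.2)).1 (continuousAt_const (y := pt false))
  · rw [r.isOpen_iff_image_isOpen, image_singleton]
    rfl

def φ : Y → ℕ → Bool
  | inl n => fun m => decide (n = m)
  | inr b => fun _ => !b

theorem φ_lim : Tendsto (fun n => φ (inl n)) atTop (𝓝 (φ (inr true))) := by
  refine tendsto_pi_nhds.2 fun m => tendsto_const_nhds.congr' ?_
  filter_upwards [eventually_gt_atTop m] with n hn
  simp [φ, hn.ne']

theorem two : ∃ σ σ' : TopologicalSpace S, (@PolishSpace S σ ∧ @ContinuousMul S σ _) ∧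
    (@PolishSpace S σ' ∧ @ContinuousMul S σ' _) ∧ σ ≠ σ' := by
  obtain ⟨σ, a1, a2, a3⟩ := @build ⊥ (by
      let _ : TopologicalSpace Y := ⊥
      have : DiscreteTopology Y := ⟨rfl⟩
      infer_instance) (by
      let _ : TopologicalSpace Y := ⊥
      have : DiscreteTopology Y := ⟨rfl⟩
      refine continuous_prod_of_discrete_right.2 ?_
      rintro (n | b)
      · refine continuous_iff_continuousAt.2 fun g => tendsto_const_nhds.congr' ?_
        exact (ev n g).mono fun h e => congrArg inl e.symm
      · exact continuous_const (y := (inr b : Y)))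
  let τ : TopologicalSpace Y := induced φ inferInstance
  have hφ : IsClosedEmbedding φ := by
    refine ⟨⟨⟨rfl⟩, ?_⟩, ?_⟩
    · rintro (n | b) (m | c) h
      · simpa [φ] using (congrFun h m)
      · have h1 := congrFun h n
        have h2 := congrFun h (n + 1)
        simp only [φ] at h1 h2
        simp [← h1] at h2
      · have h1 := congrFun h m
        have h2 := congrFun h (m + 1)
        simp only [φ] at h1 h2
        simp [h1] at h2
      · simpa [φ] using (congrFun h 0)
    · convert (φ_lim.isCompact_insert_range.insert (φ (inr false))).isClosed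
      ext f
      constructor
      · rintro ⟨n | _ | _, rfl⟩
        · exact Or.inr (Or.inr ⟨n, rfl⟩)
        · exact Or.inl rfl
        · exact Or.inr (Or.inl rfl)
      · rintro (rfl | rfl | ⟨n, rfl⟩) <;> exact ⟨_, rfl⟩
  have : PolishSpace (ℕ → Bool) := { }
  obtain ⟨σ', b1, b2, b3⟩ := @build τ hφ.polishSpace (by
    refine hφ.isInducing.continuous_iff.2 (continuous_pi fun m => ?_)
    refine continuous_iff_continuousAt.2 fun p => tendsto_const_nhds.congr' ?_
    filter_upwards [continuousAt_fst.eventually (ev (p.1.symm m) p.1), continuousAt_snd.eventually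
      ((((continuous_apply (p.1.symm m)).comp hφ.continuous).tendsto p.2).eventually_mem
        (IsOpen.mem_nhds (s := {φ p.2 (p.1.symm m)}) (isOpen_discrete _) rfl))] with q h1 h2
    have e : ∀ (g : G) (y : Y), φ (Sum.map g id y) m = φ y (g.symm m) := by
      rintro g (n | b)
      · simp [φ, Equiv.eq_symm_apply]
      · rfl
    have e2 : q.1.symm m = p.1.symm m :=
      (Equiv.symm_apply_eq _).2 (by rw [h1, Equiv.apply_symm_apply])
    simp only [Function.comp, e, e2]
    exact Eq.symm h2)
  refine ⟨σ, σ', ⟨a1, a2⟩, ⟨b1, b2⟩, ?_⟩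
  rintro rfl
  have h1 : IsOpen[τ] {(inr true : Y)} := b3.1 (a3.2 trivial)
  obtain ⟨n, hn⟩ := ((hφ.isInducing.tendsto_nhds_iff.2 φ_lim).eventually
    (h1.mem_nhds rfl)).exists
  exact nomatch hn

theorem result : ∃ (S : Type) (_ : Semigroup S), 2 ≤ N S ∧ N S < ℵ₀ := by
  refine ⟨S, inferInstance, ?_, ?_⟩
  · obtain ⟨σ, σ', h1, h2, h3⟩ := two
    exact (two_le_iff).2 ⟨⟨σ, h1⟩, ⟨σ', h2⟩, fun h => h3 (congrArg Subtype.val h)⟩
  · refine lt_aleph0_iff_finite.2 (Finite.of_injective (β := Bool → Prop)
      (fun τ b => IsOpen[τ.1] {pt b}) fun τ τ' h => Subtype.ext ?_)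
    refine TopologicalSpace.ext_nhds fun s => ?_
    rw [@nhds_eq τ.1 τ.2.1 τ.2.2, @nhds_eq τ'.1 τ'.2.1 τ'.2.2]
    exact congrArg (fun D => nh D s) h

end Pool.Agent.Results.MP_67072b_lc.Finite
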